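import Pool.Agent.H11.NZ.Targets

/-!
# Systems of imprimitivity on which `X` acts non-trivially
-/

set_option autoImplicit false

open Equiv (Perm)

namespace Pool.Agent.H51.NZ

open Pool.Agent.H11.NY Pool.Agent.H11.NZ

theorem hpair_mono {L Ω : Type} [Group L] [Fintype Ω] [DecidableEq Ω]
    {ψ : L →* alternatingGroup Ω} {e B B' q p : ℕ} {a h : L} (hB : B ≤ B')
    (hp : HPair ψ e B' q p a h) : HPair ψ e B q p a h := by
  obtain ⟨h1, h2, h3, h4, h5, h6, h7, h8, h9, h10, h11⟩ := hp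
  exact ⟨h1, h2, h3, h4, h5, h6, h7, h8, h9, h10, fun i j hij => hB.trans (h11 i j hij)⟩

theorem hpair_card {L Ω : Type} [Group L] [Fintype Ω] [DecidableEq Ω]
    {ψ : L →* alternatingGroup Ω} {e B q p : ℕ} {a h : L}
    (hp : HPair ψ e B q p a h) : B ≤ Fintype.card Ω := by
  obtain ⟨h1, h2, h3, h4, h5, h6, h7, h8, h9, h10, h11⟩ := hp
  have := h11 1 0 (by simpa using h9)
  exact this.trans (Finset.card_le_univ _)

theorem pf_cax (hA2 : T_A2) (hPT : T_PT) (hA5 : T_A5X) : T_CAX := by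
  intro e
  obtain ⟨B0, hB0⟩ := hPT e
  refine ⟨max B0 7, ?_⟩
  intro L Ω Λ _ _ _ _ _ _ ψ X hX hS K V _ _ _ ρ W hSys hmove hpairs v
  obtain ⟨hW1, hW2, hW3, hW4, hW5⟩ := hSys
  obtain ⟨x, hxX, i0, hxi⟩ := hmove
  have hnot : ¬ X ≤ MulAction.stabilizer L i0 := fun h => hxi (h hxX)
  have hpairs' : ∀ r : ℕ, r.Prime → ∃ (q p : ℕ) (a h : L), q ≠ r ∧ HPair ψ e B0 q p a h ∧
      TCS q a h (MulAction.stabilizer L i0) := by
    intro r hr
    obtain ⟨q, p, a, h, hqr, hp, hrel⟩ := hpairs r hr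
    refine ⟨q, p, a, h, hqr, hpair_mono (le_max_left _ _) hp, ?_⟩
    intro y
    have hq := hp.1
    have haq := hp.2.2.2.2.2.1
    rcases hA2 L Λ K V ρ W hW1 hW3 hW4 q a h hq haq hrel (y • i0) with h1 | ⟨κ, hκ, h1⟩
    · left
      rw [MulAction.mem_stabilizer_iff, mul_smul, mul_smul, h1, inv_smul_smul]
    · right
      refine ⟨κ, hκ, ?_⟩
      rw [MulAction.mem_stabilizer_iff, mul_smul, mul_smul, h1, inv_smul_smul]
  obtain ⟨ω, hω⟩ := hB0 L Ω ψ X hX hS (MulAction.stabilizer L i0) hnot hpairs'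
  have htr : ∀ i : Λ, ∃ y : L, y • i0 = i := fun i => MulAction.exists_smul_eq L i0 i
  choose g hg using htr
  have hf : ∀ (y : L) (i : Λ), (ψ (g (y • i)) : Perm Ω) ω = (ψ y : Perm Ω) ((ψ (g i) : Perm Ω) ω) := by
    intro y i
    have h1 : (g (y • i))⁻¹ * (y * g i) ∈ MulAction.stabilizer L i0 := by
      rw [MulAction.mem_stabilizer_iff, mul_smul, mul_smul, hg, inv_smul_eq_iff, hg]
    have h2 := hω _ h1
    rw [map_mul, map_mul, map_inv] at h2
    simp only [Subgroup.coe_mul, Subgroup.coe_inv, Equiv.Perm.coe_mul, Function.comp_apply] at h2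
    rw [Equiv.Perm.inv_eq_iff_eq] at h2
    exact h2.symm
  obtain ⟨q, p, a, h, hqr, hp, hrel⟩ := hpairs 2 Nat.prime_two
  have hcard : 7 ≤ Fintype.card Ω := (le_max_right _ _).trans (hpair_card hp)
  exact hA5 L Ω Λ ψ X (by omega) hX K V ρ W ⟨hW1, hW2, hW3, hW4, hW5⟩
    (fun i => (ψ (g i) : Perm Ω) ω) hf e q p a h
    (hpair_mono (le_trans (by norm_num) (le_max_right _ _)) hp) hrel e v

end Pool.Agent.H51.NZ
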